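import Mathlib
import Pool.Agent.V11294.M2.Lin

/-!
# A weighted alternating sum modulo `p ^ 2`
-/

namespace Pool.Agent.Results.MP_07dc7c_nt.WeightedSum

open Finset Pool.Agent.V11294.M2

lemma ram_RR (p n : ℕ) (hp : p.Prime) (hpn : p = 2 * n + 1) (h3 : p ≠ 3) (h7 : p ≠ 7) :
    ∑ j ∈ range (n + 1), (21 * (j : RR p) + 8) * ff (RR p) j = 8 * p := by
  have hx := ctx_RR p n hp hpn
  have hw := om_eq p
  have hy := isUnit_y p n hp hpn h7 _ hw
  have hv : om p * ((1 - om p) * tt p) = 1 := by linear_combination hx.ht - tt p * hw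
  have hv' : (1 - om p) * (om p * tt p) = 1 := by linear_combination hv
  have u3 : IsUnit (3 : RR p) := by
    have := hx.hu 3 (by norm_num) (by
      have := hp.two_le
      omega)
    exact_mod_cast this
  have hJ : jacobiSym p 7 = 1 ∨ jacobiSym p 7 = -1 := by
    apply jacobiSym.eq_one_or_neg_one
    have : Nat.Coprime p 7 := (Nat.coprime_primes hp (by norm_num)).2 h7
    exact_mod_cast this
  apply ram_of_quad hx (om p) hw hy u3
  rcases hJ with h | h
  · obtain ⟨a, b, ha, hb⟩ := split_data p n hp hpn h (om p) _ hw hv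
    exact quad_split hx (om p) a b hw ha hb (IsUnit.of_mul_eq_one _ hv')
  · obtain ⟨h1, h2⟩ := inert_data p n hp hpn h (om p) hw
    obtain ⟨e1, _⟩ := inert_pt (t := tt p) hx (om p) _ hw hv h1 hy
    obtain ⟨r, hr⟩ := flat_RR p hp _ e1
    exact quad_inert hx (om p) r hw h1 h2 hr hy

/-- For every prime `p ≠ 7`, `∑_{m<p} (-1)^m (42m+37) a(m) ≡ p (21 (p/7) + 16) (mod p^2)`, where
`a(m) = ∑_{0≤k≤m} (-16)^k C(m,k)^2 C(m-k,k)^2`. -/
theorem result (p : ℕ) (hp : p.Prime) (h7 : p ≠ 7) :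
    (∑ m ∈ range p, (-1) ^ m * (42 * (m : ℤ) + 37) * ∑ k ∈ range (m + 1),
      (-16) ^ k * (m.choose k : ℤ) ^ 2 * ((m - k).choose k : ℤ) ^ 2) ≡
      p * (21 * jacobiSym p 7 + 16) [ZMOD (p : ℤ) ^ 2] := by
  by_cases h2 : p = 2
  · subst h2
    have hJ : jacobiSym (2 : ℕ) 7 = 1 := by norm_num
    rw [hJ]
    decide
  by_cases h3 : p = 3
  · subst h3
    have hJ : jacobiSym (3 : ℕ) 7 = -1 := by norm_num
    rw [hJ]
    decide
  obtain ⟨n, hn⟩ : Odd p := hp.odd_of_ne_two h2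
  have h := sum_lin p n hp hn
  rw [ram_RR p n hp hn h3 h7] at h
  have hx := ctx_RR p n hp hn
  have hPP := hx.hP
  have h63 : (p : RR p) * (21 * (-63) ^ n) = p * (21 * ((jacobiSym p 7 : ℤ) : RR p)) := by
    have e1 : (-63 : RR p) ^ n = 9 ^ n * (-7) ^ n := by rw [← mul_pow]; norm_num
    have e2 := seven_pow_eq p n hp hn
    have e3 : (3 : RR p) * 9 ^ n = 3 ^ p := by
      have e9 : (9 : RR p) = 3 ^ 2 := by norm_num
      rw [e9, ← pow_mul, ← pow_succ']
      congr 1
      omega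
    have e4 : (p : RR p) * 3 ^ p = p * 3 := by
      have hf := Fact.mk hp
      have h1 : (((3 : ℤ) ^ p - 3 : ℤ) : ZMod p) = 0 := by
        push_cast
        rw [ZMod.pow_card, sub_self]
      rw [ZMod.intCast_zmod_eq_zero_iff_dvd] at h1
      obtain ⟨k, hk⟩ := h1
      have h3 := congrArg (Int.cast (R := RR p)) hk
      push_cast at h3
      linear_combination (p : RR p) * h3 + (k : RR p) * hPP
    rw [e1]
    linear_combination 21 * 9 ^ n * e2 + 7 * ((jacobiSym p 7 : ℤ) : RR p) * (p : RR p) * e3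
      + 7 * ((jacobiSym p 7 : ℤ) : RR p) * e4
  have h4 : ((∑ m ∈ range p, (-1) ^ m * (42 * (m : ℤ) + 37) * am m
      - p * (21 * jacobiSym p 7 + 16) : ℤ) : RR p) = 0 := by
    rw [Int.cast_sub, h]
    push_cast
    linear_combination h63
  have h5 := intCast_RR_eq_zero p _ h4
  exact (Int.modEq_iff_dvd.2 (by
    have := (dvd_neg).2 h5
    rw [neg_sub] at this
    exact this))

end Pool.Agent.Results.MP_07dc7c_nt.WeightedSum
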